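import Pool.Agent.Lib.MP_f6efc0_lc.Inst
import Pool.Agent.Lib.MP_f6efc0_lc.Core.MainA

/-!
An oracle such that BPP has a complete language and RP has none.
-/

set_option autoImplicit false

namespace OrC

open F6Core (wds mem_wds card_wds vc cw yw un)

/-- Acceptance probability of the machine `codeT`, which asks the word `false :: (v ++ r)`. -/
lemma PrOut_codeT (A : Oracle) (v : Word) (S : Option Bool → Prop) [DecidablePred S] :
    PrOut A codeT 1 v S =
      (((wds (v.length + 1)).filter fun ρ => S (some (A (cw v ρ)))).card : ℝ) /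
        2 ^ (v.length + 1) := by
  unfold PrOut
  rw [pow_one, Pr_eq_card]
  congr 2
  refine congrArg Finset.card (Finset.filter_congr fun r _ => ?_)
  unfold outcome cw
  rw [eval_codeT]
  rfl

lemma PrOut_yT (A : Oracle) (j : ℕ) (x : Word) (S : Option Bool → Prop) [DecidablePred S] :
    PrOut A (yT j) 1 x S =
      (((wds (x.length + 1)).filter fun y => S (some (A (yw j y)))).card : ℝ) /
        2 ^ (x.length + 1) := by
  unfold PrOut
  rw [pow_one, Pr_eq_card]
  congr 2
  refine congrArg Finset.card (Finset.filter_congr fun r _ => ?_)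
  unfold outcome
  rw [eval_yT]
  rfl

lemma PrOut_codeT_ne (A : Oracle) (v : Word) (c : Bool) :
    PrOut A codeT 1 v (fun y => y ≠ some c) =
      (((wds (v.length + 1)).filter fun ρ => A (cw v ρ) ≠ c).card : ℝ) / 2 ^ (v.length + 1) := by
  rw [PrOut_codeT]
  congr 3
  refine Finset.filter_congr fun ρ _ => ?_
  simp

/-- If all but one eighth of the words have the value `b`, the error is below `1 / 4`. -/
lemma codeT_small {A : Oracle} {v : Word} {b : Bool}
    (hb : ((wds (v.length + 1)).filter fun ρ => A (cw v ρ) ≠ b).card * 8 ≤ 2 ^ (v.length + 1)) :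
    PrOut A codeT 1 v (fun y => y ≠ some b) < 1 / 4 := by
  rw [PrOut_codeT_ne, div_lt_iff₀ (by positivity)]
  have h1 : ((((wds (v.length + 1)).filter fun ρ => A (cw v ρ) ≠ b).card : ℝ)) * 8 ≤
      2 ^ (v.length + 1) := by exact_mod_cast hb
  have h2 : (0 : ℝ) < 2 ^ (v.length + 1) := by positivity
  linarith

/-- The two errors add up to one. -/
lemma codeT_add (A : Oracle) (v : Word) :
    PrOut A codeT 1 v (fun y => y ≠ some true) + PrOut A codeT 1 v (fun y => y ≠ some false) =
      1 := by
  have h := Pr_compl (v.length ^ 1 + 1) fun r => outcome A codeT v r ≠ some true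
  have h2 : Pr (v.length ^ 1 + 1) (fun r => ¬ outcome A codeT v r ≠ some true) =
      PrOut A codeT 1 v fun y => y ≠ some false := by
    unfold PrOut
    refine Pr_congr _ fun r _ => ?_
    unfold outcome
    rw [eval_codeT]
    cases A (false :: (v ++ r)) <;> simp
  rw [h2] at h
  exact h

/-- The oracle of the first part. -/
theorem partA : ∃ A : Oracle,
    (∃ K : Set Word, InBPP A K ∧ ∀ L : Set Word, InBPP A L → ∀ O : Oracle, Reduces O L K) ∧
    ¬ ∃ K : Set Word, InRP A K ∧ ∀ L : Set Word, InRP A L → Reduces A L K := by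
  obtain ⟨A, ⟨hL1, hL2⟩, hA⟩ := sysA.core_a
  refine ⟨A, ⟨{v | PrOut A codeT 1 v (fun y => y ≠ some true) < 1 / 4}, ?_, ?_⟩, ?_⟩
  · -- `K` is in BPP
    refine ⟨codeT, 1, 1 / 4, by norm_num, by norm_num, fun v => ⟨fun h => h, fun h => ?_⟩⟩
    obtain ⟨b, hb⟩ := hL2 v
    cases b
    · exact codeT_small hb
    · exact absurd (codeT_small hb) h
  · -- `K` is complete
    intro L hL O
    obtain ⟨j, s, hjs⟩ := gap_of_BPP hL
    obtain ⟨c, hc⟩ := bdj_PB j
    refine reduces_code O j s c fun x => ?_
    obtain ⟨b, hb, h1, h2⟩ := hL1 j s ((x.length + 2) ^ c) x (hc _)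
    rw [sysA_pr] at h1 h2
    have hb' : PrOut A codeT 1 (code j s ((x.length + 2) ^ c) x) (fun y => y ≠ some b) < 1 / 4 :=
      codeT_small hb
    constructor
    · intro hx
      rw [h1 ((hjs x).1 hx)] at hb'
      exact hb'
    · intro hv
      by_contra hx
      rw [h2 ((hjs x).2 hx)] at hb'
      have h3 := codeT_add A (code j s ((x.length + 2) ^ c) x)
      have h4 : PrOut A codeT 1 (code j s ((x.length + 2) ^ c) x)
        (fun y => y ≠ some true) < 1 / 4 := hv
      linarith
  · -- RP has no complete language
    rintro ⟨K, ⟨t, k, hK⟩, hcomp⟩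
    obtain ⟨j, hj⟩ := dec_surj (t, k)
    have hpr : ∀ x, sysA.pr j A x = PrOut A t k x (fun y => y = some true) := by
      intro x
      rw [sysA_pr, hj]
      rfl
    have hin : ∀ x, x ∈ K ↔ 0 < sysA.pr j A x := by
      intro x
      rw [hpr]
      constructor
      · intro hx
        linarith [(hK x).1 hx]
      · intro h
        by_contra hx
        rw [(hK x).2 hx] at h
        exact lt_irrefl _ h
    obtain ⟨hY, hno⟩ := hA j fun x => by
      rw [hpr]
      by_cases hx : x ∈ K
      · exact Or.inr ((hK x).1 hx)
      · exact Or.inl ((hK x).2 hx)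
    have hL : InRP A {x | ∃ y : Word, y.length = x.length + 1 ∧ A (yw j y) = true} := by
      refine ⟨yT j, 1, fun x => ⟨?_, fun hx => ?_⟩⟩
      · rintro ⟨y, hy, hy1⟩
        rcases hY x.length with h | h
        · rw [h y hy] at hy1
          exact absurd hy1 (by decide)
        · rw [PrOut_yT, lt_div_iff₀ (by positivity)]
          have h1 : ((2 : ℝ)) ^ x.length <
              (((wds (x.length + 1)).filter fun y => A (yw j y) = true).card : ℝ) := by
            exact_mod_cast h
          have h2 : ((wds (x.length + 1)).filter fun y => some (A (yw j y)) = some true) =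
              (wds (x.length + 1)).filter fun y => A (yw j y) = true := by
            refine Finset.filter_congr fun y _ => ?_
            simp
          rw [h2, pow_succ]
          linarith
      · rw [PrOut_yT]
        have h2 : ((wds (x.length + 1)).filter fun y => some (A (yw j y)) = some true) = ∅ := by
          rw [Finset.filter_eq_empty_iff]
          intro y hy h3
          exact hx ⟨y, mem_wds.1 hy, Option.some.inj h3⟩
        rw [h2]
        simp
    obtain ⟨i, hi⟩ := exists_red (hcomp _ hL)
    obtain ⟨x, hx⟩ := hno i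
    exact hx ((hi x).trans (hin _))

end OrC
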