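import Pool.Agent.Lib.MP_f6efc0_lc.Terms

set_option autoImplicit false

namespace OrC

/-- Functions computable in polynomial time with the oracle `A`. -/
def PolyTime (A : Oracle) (f : Word → Word) : Prop := ∃ t : Tm, ∀ x : Word, f x = eval A t [x]

/-- The probability that a random word of length `m` has the property `S`. -/
noncomputable def Pr (m : ℕ) (S : Word → Prop) : ℝ :=
  ({r : Word | r.length = m ∧ S r}.ncard : ℝ) / 2 ^ m

/-- The outcome of a probabilistic machine on the input `x` with the coin tosses `r`:
`some true` is the accepting state, `some false` the rejecting state, `none` is `?`. -/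
def outcome (A : Oracle) (t : Tm) (x r : Word) : Option Bool := (eval A t [x, r]).head?

/-- The probability that the machine `t` with `|x|^k + k` coin tosses has an outcome in `S`. -/
noncomputable def PrOut (A : Oracle) (t : Tm) (k : ℕ) (x : Word) (S : Option Bool → Prop) : ℝ :=
  Pr (x.length ^ k + k) fun r => S (outcome A t x r)

/-- The class BPP relative to `A`. -/
def InBPP (A : Oracle) (L : Set Word) : Prop :=
  ∃ (t : Tm) (k : ℕ) (ε : ℝ), 0 < ε ∧ ε < 1 / 2 ∧ ∀ x : Word,
    (x ∈ L → PrOut A t k x (fun y => y ≠ some true) < ε) ∧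
    (x ∉ L → PrOut A t k x (fun y => y ≠ some false) < ε)

/-- The class RP relative to `A`. -/
def InRP (A : Oracle) (L : Set Word) : Prop :=
  ∃ (t : Tm) (k : ℕ), ∀ x : Word,
    (x ∈ L → 1 / 2 < PrOut A t k x (fun y => y = some true)) ∧
    (x ∉ L → PrOut A t k x (fun y => y = some true) = 0)

/-- Many-one reducibility in polynomial time with the oracle `A`. -/
def Reduces (A : Oracle) (L K : Set Word) : Prop :=
  ∃ f : Word → Word, PolyTime A f ∧ ∀ x : Word, x ∈ L ↔ f x ∈ K

lemma finite_words (m : ℕ) (S : Word → Prop) : {r : Word | r.length = m ∧ S r}.Finite :=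
  (List.finite_length_eq Bool m).subset fun _ h => h.1

lemma ncard_words (m : ℕ) : {r : Word | r.length = m}.ncard = 2 ^ m := by
  have h : {r : Word | r.length = m} = Set.range (fun v : Fin m → Bool => List.ofFn v) := by
    ext r
    constructor
    · intro h
      have h' : r.length = m := h
      subst h'
      exact ⟨fun i => r[i], by simp⟩
    · rintro ⟨v, rfl⟩
      exact List.length_ofFn
  rw [h, ← Set.image_univ, Set.ncard_image_of_injective _ List.ofFn_injective,
    Set.ncard_univ, Nat.card_eq_fintype_card]
  simp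

lemma Pr_compl (m : ℕ) (S : Word → Prop) : Pr m S + Pr m (fun r => ¬ S r) = 1 := by
  unfold Pr
  rw [← add_div, ← Nat.cast_add, ← Set.ncard_union_eq _ (finite_words m S)
    (finite_words m fun r => ¬ S r)]
  · have : {r : Word | r.length = m ∧ S r} ∪ {r : Word | r.length = m ∧ ¬ S r} =
        {r : Word | r.length = m} := by
      ext r
      constructor
      · rintro (h | h)
        · exact h.1
        · exact h.1
      · intro h
        by_cases hS : S r
        · exact Or.inl ⟨h, hS⟩
        · exact Or.inr ⟨h, hS⟩
    rw [this, ncard_words]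
    push_cast
    exact div_self (by positivity)
  · rw [Set.disjoint_left]
    intro r h1 h2
    exact h2.2 h1.2

lemma Pr_mono (m : ℕ) {S T : Word → Prop} (h : ∀ r, r.length = m → S r → T r) :
    Pr m S ≤ Pr m T := by
  unfold Pr
  have : {r : Word | r.length = m ∧ S r}.ncard ≤ {r : Word | r.length = m ∧ T r}.ncard :=
    Set.ncard_le_ncard (fun r hr => ⟨hr.1, h r hr.1 hr.2⟩) (finite_words m T)
  gcongr

lemma Pr_congr (m : ℕ) {S T : Word → Prop} (h : ∀ r, r.length = m → (S r ↔ T r)) :
    Pr m S = Pr m T :=
  le_antisymm (Pr_mono m fun r hr => (h r hr).1) (Pr_mono m fun r hr => (h r hr).2)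

lemma Pr_nonneg (m : ℕ) (S : Word → Prop) : 0 ≤ Pr m S := by
  unfold Pr
  positivity

lemma Pr_pos {m : ℕ} {S : Word → Prop} {r : Word} (hr : r.length = m) (h : S r) : 0 < Pr m S := by
  unfold Pr
  have : 0 < {r : Word | r.length = m ∧ S r}.ncard :=
    (Set.ncard_pos (finite_words m S)).2 ⟨r, hr, h⟩
  positivity

end OrC
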