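import Pool.Agent.Lib.MP_f6efc0_lc.Classes
import Pool.Agent.Lib.MP_f6efc0_lc.Core.Sys
import Pool.Agent.Lib.MP_f6efc0_lc.CoreB.Defs

/-!
The machines of the model as instances of the two abstract structures.
-/

set_option autoImplicit false

namespace OrC

instance : Nonempty Tm := ⟨Tm.nil⟩

/-- An enumeration of the machines: term and exponent. -/
noncomputable def dec : ℕ → Tm × ℕ := (exists_surjective_nat (Tm × ℕ)).choose

lemma dec_surj : Function.Surjective dec := (exists_surjective_nat (Tm × ℕ)).choose_spec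

/-- The number of coins. -/
noncomputable def coins (j n : ℕ) : ℕ := n ^ (dec j).2 + (dec j).2

/-- The bound for the number and the length of the questions. -/
noncomputable def bdj (j n : ℕ) : ℕ := bd (dec j).1 (n + coins j n)

lemma coins_mono (j : ℕ) : Monotone (coins j) := fun _ _ h =>
  Nat.add_le_add_right (Nat.pow_le_pow_left h _) _

lemma bdj_mono (j : ℕ) : Monotone (bdj j) := fun _ _ h =>
  bd_mono _ (Nat.add_le_add h (coins_mono j h))

lemma bdj_PB (j : ℕ) : PB (bdj j) := by
  have h : PB (coins j) := (PB.id.pow _).add (PB.const _)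
  exact (bd_PB (dec j).1).comp (PB.id.add h)

lemma PB.alt {f : ℕ → ℕ} (hf : PB f) : ∃ c, ∀ n, f n ≤ n ^ c + c := by
  obtain ⟨c, hc⟩ := hf
  refine ⟨2 * c + 3 ^ c, fun n => (hc n).trans ?_⟩
  rcases Nat.lt_or_ge n 2 with h | h
  · have h1 : (n + 2) ^ c ≤ 3 ^ c := Nat.pow_le_pow_left (by omega) c
    omega
  · have h1 : (n + 2) ^ c ≤ n ^ (2 * c) := by
      rw [pow_mul]
      exact Nat.pow_le_pow_left (by nlinarith) c
    have h2 : n ^ (2 * c) ≤ n ^ (2 * c + 3 ^ c) :=
      Nat.pow_le_pow_right (by omega) (Nat.le_add_right _ _)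
    exact h1.trans (h2.trans (Nat.le_add_right _ _))

lemma le_one (x : Word) : Le [x] x.length := by
  intro y hy
  rw [List.mem_singleton] at hy
  rw [hy]

lemma le_two (j : ℕ) {x r : Word} (hr : r.length = coins j x.length) :
    Le [x, r] (x.length + coins j x.length) := by
  intro y hy
  simp only [List.mem_cons, List.not_mem_nil, or_false] at hy
  rcases hy with rfl | rfl
  · omega
  · omega

lemma bounds_one (i : ℕ) (A : Oracle) (x : Word) :
    (eval A (dec i).1 [x]).length ≤ bdj i x.length ∧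
    (qs A (dec i).1 [x]).length ≤ bdj i x.length ∧
    ∀ q ∈ qs A (dec i).1 [x], q.length ≤ bdj i x.length :=
  bounds A (dec i).1 [x] _ ((le_one x).mono (by omega))

lemma bounds_two (j : ℕ) (A : Oracle) (x r : Word) (hr : r.length = coins j x.length) :
    (qs A (dec j).1 [x, r]).length ≤ bdj j x.length ∧
    ∀ q ∈ qs A (dec j).1 [x, r], q.length ≤ bdj j x.length :=
  (bounds A (dec j).1 [x, r] _ (le_two j hr)).2

/-- Acceptance. -/
def accj (t : Tm) (A : Oracle) (x r : Word) : Bool := decide (outcome A t x r = some true)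

lemma accj_eq {t : Tm} {A : Oracle} {x r : Word} :
    accj t A x r = true ↔ outcome A t x r = some true := by
  unfold accj
  exact decide_eq_true_iff

/-- The instance for the first core. -/
noncomputable def sysA : F6Core.Sys where
  F i A x := eval A (dec i).1 [x]
  askF i A x := (qs A (dec i).1 [x]).toFinset
  acc j A x r := accj (dec j).1 A x r
  askA j A x r := (qs A (dec j).1 [x, r]).toFinset
  rl := coins
  bd := bdj
  locF i A B x h := (eval_congr A B _ _ fun q hq => h q (List.mem_toFinset.2 hq)).1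
  locA j A B x r _ h := by
    unfold accj outcome
    rw [(eval_congr A B _ _ fun q hq => h q (List.mem_toFinset.2 hq)).1]
  lenF i A x q hq := (bounds_one i A x).2.2 q (List.mem_toFinset.1 hq)
  lenA j A x r hr q hq := (bounds_two j A x r hr).2 q (List.mem_toFinset.1 hq)
  cardF i A x := (List.toFinset_card_le _).trans (bounds_one i A x).2.1
  cardA j A x r hr := (List.toFinset_card_le _).trans (bounds_two j A x r hr).1
  outF i A x := (bounds_one i A x).1
  bd_mono := bdj_mono
  bd_poly j := (bdj_PB j).alt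

/-- The instance for the second core. -/
noncomputable def sysB : BSys where
  acc j A x r := accj (dec j).1 A x r
  qst j A x r := qs A (dec j).1 [x, r]
  rl := coins
  bd := bdj
  F i A x := eval A (dec i).1 [x]
  qF i A x := qs A (dec i).1 [x]
  bF := bdj
  loc j A A' x r h := by
    obtain ⟨h1, h2⟩ := eval_congr A A' _ _ h
    refine ⟨?_, h2⟩
    unfold accj outcome
    rw [h1]
  qnum j A x r hr := (bounds_two j A x r hr).1
  qlen j A x r hr := (bounds_two j A x r hr).2
  bd_poly := bdj_PB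
  locF i A A' x h := (eval_congr A A' _ _ h).1
  qFnum i A x := (bounds_one i A x).2.1
  qFlen i A x := (bounds_one i A x).2.2
  Flen i A x := (bounds_one i A x).1
  bF_poly := bdj_PB

/-- Acceptance probability. -/
noncomputable def PrAcc (A : Oracle) (t : Tm) (k : ℕ) (x : Word) : ℝ :=
  PrOut A t k x fun y => y = some true

lemma sysB_P (j : ℕ) (A : Oracle) (x : Word) :
    sysB.P j A x = PrAcc A (dec j).1 (dec j).2 x := by
  unfold BSys.P PrAcc PrOut
  exact Pr_congr _ fun r _ => accj_eq

lemma Pr_eq_card (m : ℕ) (S : Word → Prop) [DecidablePred S] :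
    Pr m S = (((F6Core.wds m).filter S).card : ℝ) / 2 ^ m := by
  unfold Pr
  congr 2
  rw [← Set.ncard_coe_finset]
  congr 1
  ext r
  simp only [Finset.coe_filter, F6Core.mem_wds]

lemma sysA_pr (j : ℕ) (A : Oracle) (x : Word) :
    sysA.pr j A x = PrAcc A (dec j).1 (dec j).2 x := by
  unfold F6Core.Sys.pr PrAcc PrOut
  rw [← Pr_eq_card]
  exact Pr_congr _ fun r _ => accj_eq

lemma PrAcc_nonneg (A : Oracle) (t : Tm) (k : ℕ) (x : Word) : 0 ≤ PrAcc A t k x := Pr_nonneg _ _

/-- The error probability bounds the acceptance probability. -/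
lemma PrAcc_of_mem {A : Oracle} {t : Tm} {k : ℕ} {x : Word} {ε : ℝ}
    (h : PrOut A t k x (fun y => y ≠ some true) < ε) : 1 - ε < PrAcc A t k x := by
  have := Pr_compl (x.length ^ k + k) fun r => outcome A t x r = some true
  unfold PrAcc PrOut
  unfold PrOut at h
  linarith

lemma PrAcc_of_notMem {A : Oracle} {t : Tm} {k : ℕ} {x : Word} {ε : ℝ}
    (h : PrOut A t k x (fun y => y ≠ some false) < ε) : PrAcc A t k x < ε := by
  refine lt_of_le_of_lt ?_ h
  refine Pr_mono _ fun r _ h1 => ?_
  rw [h1]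
  intro h2
  exact absurd (Option.some.inj h2) (by decide)

/-- A machine for a language of BPP has a gap. -/
lemma gap_of_BPP {A : Oracle} {L : Set Word} (h : InBPP A L) : ∃ j s : ℕ, ∀ x : Word,
    (x ∈ L → 1 / 2 + 1 / ((s : ℝ) + 1) ≤ PrAcc A (dec j).1 (dec j).2 x) ∧
    (x ∉ L → PrAcc A (dec j).1 (dec j).2 x ≤ 1 / 2 - 1 / ((s : ℝ) + 1)) := by
  obtain ⟨t, k, ε, h0, h1, h2⟩ := h
  obtain ⟨j, hj⟩ := dec_surj (t, k)
  obtain ⟨s, hs⟩ := exists_nat_one_div_lt (show 0 < 1 / 2 - ε by linarith)
  refine ⟨j, s, fun x => ⟨fun hx => ?_, fun hx => ?_⟩⟩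
  · have := PrAcc_of_mem ((h2 x).1 hx)
    rw [hj]
    simp only
    linarith
  · have := PrAcc_of_notMem ((h2 x).2 hx)
    rw [hj]
    simp only
    linarith

/-- A reduction has a number. -/
lemma exists_red {A : Oracle} {L K : Set Word} (h : Reduces A L K) :
    ∃ i : ℕ, ∀ x : Word, x ∈ L ↔ eval A (dec i).1 [x] ∈ K := by
  obtain ⟨f, ⟨t, ht⟩, hf⟩ := h
  obtain ⟨i, hi⟩ := dec_surj (t, 0)
  refine ⟨i, fun x => ?_⟩
  rw [hf x, ht x, hi]

/-- The reduction `x ↦ code j s ((|x| + 2)^c) x`, for every oracle. -/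
lemma reduces_code (O : Oracle) (j s c : ℕ) {L K : Set Word}
    (h : ∀ x : Word, x ∈ L ↔ code j s ((x.length + 2) ^ c) x ∈ K) : Reduces O L K := by
  refine ⟨fun x => code j s ((x.length + 2) ^ c) x, ⟨redT j s c, fun x => ?_⟩, h⟩
  rw [eval_redT]

end OrC
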