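import Pool.Agent.Lib.MP_f6efc0_lc.Tm

set_option autoImplicit false

namespace OrC

/-- Truncated recursion on notation. -/
def recW (g : Word) (h : Word → Word → Word) (k : Word → ℕ) : Word → Word
  | [] => g
  | b :: x => (h (recW g h k x) (b :: x)).take (k (b :: x))

/-- The value of a program in an environment, relative to the oracle `A`. -/
def eval (A : Oracle) : Tm → List Word → Word
  | .var i, e => e.getD i []
  | .nil, _ => []
  | .cons b t, e => b :: eval A t e
  | .cas t u v w, e =>
      match eval A t e with
      | [] => eval A u e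
      | false :: x => eval A v (x :: e)
      | true :: x => eval A w (x :: e)
  | .smash t u, e => List.replicate ((eval A t e).length * (eval A u e).length) true
  | .ask t, e => [A (eval A t e)]
  | .lett t u, e => eval A u (eval A t e :: e)
  | .recn t g h k, e =>
      recW (eval A g e) (fun r x => eval A h (r :: x :: e)) (fun x => (eval A k (x :: e)).length)
        (eval A t e)

/-- Questions asked during a recursion. -/
def recQ (r : Word → Word) (h : Word → Word → List Word) (k : Word → List Word) :
    Word → List Word
  | [] => []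
  | b :: x => recQ r h k x ++ (h (r x) (b :: x) ++ k (b :: x))

/-- The list of all questions asked by a program. -/
def qs (A : Oracle) : Tm → List Word → List Word
  | .var _, _ => []
  | .nil, _ => []
  | .cons _ t, e => qs A t e
  | .cas t u v w, e =>
      qs A t e ++
      match eval A t e with
      | [] => qs A u e
      | false :: x => qs A v (x :: e)
      | true :: x => qs A w (x :: e)
  | .smash t u, e => qs A t e ++ qs A u e
  | .ask t, e => eval A t e :: qs A t e
  | .lett t u, e => qs A t e ++ qs A u (eval A t e :: e)
  | .recn t g h k, e =>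
      qs A t e ++ (qs A g e ++
      recQ (recW (eval A g e) (fun r x => eval A h (r :: x :: e))
          (fun x => (eval A k (x :: e)).length))
        (fun r x => qs A h (r :: x :: e)) (fun x => qs A k (x :: e)) (eval A t e))

/-- Two oracles with the same answers to the questions asked give the same run. -/
lemma eval_congr (A A' : Oracle) : ∀ (t : Tm) (e : List Word), (∀ q ∈ qs A t e, A q = A' q) →
    eval A' t e = eval A t e ∧ qs A' t e = qs A t e := by
  intro t
  induction t with
  | var i => intro e _; exact ⟨rfl, rfl⟩
  | nil => intro e _; exact ⟨rfl, rfl⟩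
  | cons b t ih =>
    intro e h
    obtain ⟨h1, h2⟩ := ih e h
    exact ⟨by simp only [eval, h1], by simp only [qs, h2]⟩
  | cas t u v w iht ihu ihv ihw =>
    intro e h
    simp only [qs, List.mem_append] at h
    obtain ⟨h1, h2⟩ := iht e fun q hq => h q (Or.inl hq)
    rcases hx : eval A t e with _ | ⟨b, x⟩
    · simp only [hx] at h
      obtain ⟨h3, h4⟩ := ihu e fun q hq => h q (Or.inr hq)
      constructor
      · simp only [eval, h1, hx, h3]
      · simp only [qs, h1, hx, h2, h4]
    · cases b
      · simp only [hx] at h
        obtain ⟨h3, h4⟩ := ihv (x :: e) fun q hq => h q (Or.inr hq)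
        constructor
        · simp only [eval, h1, hx, h3]
        · simp only [qs, h1, hx, h2, h4]
      · simp only [hx] at h
        obtain ⟨h3, h4⟩ := ihw (x :: e) fun q hq => h q (Or.inr hq)
        constructor
        · simp only [eval, h1, hx, h3]
        · simp only [qs, h1, hx, h2, h4]
  | smash t u iht ihu =>
    intro e h
    simp only [qs, List.mem_append] at h
    obtain ⟨h1, h2⟩ := iht e fun q hq => h q (Or.inl hq)
    obtain ⟨h3, h4⟩ := ihu e fun q hq => h q (Or.inr hq)
    exact ⟨by simp only [eval, h1, h3], by simp only [qs, h2, h4]⟩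
  | ask t ih =>
    intro e h
    simp only [qs, List.mem_cons] at h
    obtain ⟨h1, h2⟩ := ih e fun q hq => h q (Or.inr hq)
    have h3 := h _ (Or.inl rfl)
    exact ⟨by simp only [eval, h1, h3], by simp only [qs, h1, h2]⟩
  | lett t u iht ihu =>
    intro e h
    simp only [qs, List.mem_append] at h
    obtain ⟨h1, h2⟩ := iht e fun q hq => h q (Or.inl hq)
    obtain ⟨h3, h4⟩ := ihu (eval A t e :: e) fun q hq => h q (Or.inr hq)
    exact ⟨by simp only [eval, h1, h3], by simp only [qs, h1, h2, h4]⟩
  | recn t g h k iht ihg ihh ihk =>
    intro e hA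
    simp only [qs, List.mem_append] at hA
    obtain ⟨h1, h2⟩ := iht e fun q hq => hA q (Or.inl hq)
    obtain ⟨h3, h4⟩ := ihg e fun q hq => hA q (Or.inr (Or.inl hq))
    have key : ∀ x : Word, (∀ q ∈ recQ (recW (eval A g e) (fun r x => eval A h (r :: x :: e))
          (fun x => (eval A k (x :: e)).length))
        (fun r x => qs A h (r :: x :: e)) (fun x => qs A k (x :: e)) x, A q = A' q) →
        recW (eval A' g e) (fun r x => eval A' h (r :: x :: e))
          (fun x => (eval A' k (x :: e)).length) x =
        recW (eval A g e) (fun r x => eval A h (r :: x :: e))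
          (fun x => (eval A k (x :: e)).length) x ∧
        recQ (recW (eval A' g e) (fun r x => eval A' h (r :: x :: e))
          (fun x => (eval A' k (x :: e)).length))
        (fun r x => qs A' h (r :: x :: e)) (fun x => qs A' k (x :: e)) x =
        recQ (recW (eval A g e) (fun r x => eval A h (r :: x :: e))
          (fun x => (eval A k (x :: e)).length))
        (fun r x => qs A h (r :: x :: e)) (fun x => qs A k (x :: e)) x := by
      intro x
      induction x with
      | nil => intro _; exact ⟨by simp only [recW, h3], rfl⟩
      | cons b x ih =>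
        intro hx
        simp only [recQ, List.mem_append] at hx
        obtain ⟨h5, h6⟩ := ih fun q hq => hx q (Or.inl hq)
        obtain ⟨h7, h8⟩ := ihh _ fun q hq => hx q (Or.inr (Or.inl hq))
        obtain ⟨h9, h10⟩ := ihk _ fun q hq => hx q (Or.inr (Or.inr hq))
        constructor
        · simp only [recW, h5, h7, h9]
        · simp only [recQ, h5, h6, h8, h10]
    obtain ⟨h11, h12⟩ := key (eval A t e) fun q hq => hA q (Or.inr (Or.inr hq))
    constructor
    · simp only [eval, h1, h11]
    · simp only [qs, h1, h2, h4, h12]

/-- A bound for the length of the value, the number of questions and their lengths. -/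
def bd : Tm → ℕ → ℕ
  | .var _, n => n
  | .nil, _ => 0
  | .cons _ t, n => bd t n + 1
  | .cas t u v w, n => bd t n + bd u n + bd v (n + bd t n) + bd w (n + bd t n)
  | .smash t u, n => bd t n + bd u n + bd t n * bd u n
  | .ask t, n => bd t n + 1
  | .lett t u, n => bd t n + bd u (n + bd t n)
  | .recn t g h k, n =>
      bd t n + bd g n + bd k (n + bd t n) +
      bd t n * (bd h (n + bd t n + (bd g n + bd k (n + bd t n))) + bd k (n + bd t n))

lemma bd_mono (t : Tm) : Monotone (bd t) := by
  induction t with
  | var i => intro a b h; exact h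
  | nil => intro a b _; exact le_refl _
  | cons b t ih => intro a c h; simp only [bd]; have := ih h; omega
  | cas t u v w iht ihu ihv ihw =>
    intro a b h
    have h1 := iht h
    have h2 := ihu h
    have h3 := ihv (show a + bd t a ≤ b + bd t b by omega)
    have h4 := ihw (show a + bd t a ≤ b + bd t b by omega)
    simp only [bd]
    omega
  | smash t u iht ihu =>
    intro a b h
    have h1 := iht h
    have h2 := ihu h
    have h3 := Nat.mul_le_mul h1 h2
    simp only [bd]
    omega
  | ask t ih => intro a c h; simp only [bd]; have := ih h; omega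
  | lett t u iht ihu =>
    intro a b h
    have h1 := iht h
    have h3 := ihu (show a + bd t a ≤ b + bd t b by omega)
    simp only [bd]
    omega
  | recn t g h k iht ihg ihh ihk =>
    intro a b hab
    have h1 := iht hab
    have h2 := ihg hab
    have h3 := ihk (show a + bd t a ≤ b + bd t b by omega)
    have h4 := ihh (show a + bd t a + (bd g a + bd k (a + bd t a)) ≤
      b + bd t b + (bd g b + bd k (b + bd t b)) by omega)
    have h5 := Nat.mul_le_mul h1 (Nat.add_le_add h4 h3)
    simp only [bd]
    omega

/-- All entries of the environment have length at most `n`. -/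
def Le (e : List Word) (n : ℕ) : Prop := ∀ x ∈ e, x.length ≤ n

lemma Le.getD {e : List Word} {n : ℕ} (h : Le e n) (i : ℕ) : (e.getD i []).length ≤ n := by
  rcases lt_or_ge i e.length with hi | hi
  · have : e.getD i [] = e[i] := by simp [List.getD_eq_getElem?_getD, hi]
    rw [this]
    exact h _ (List.getElem_mem hi)
  · have : e.getD i [] = [] := by simp [List.getD_eq_getElem?_getD, hi]
    rw [this]; simp

lemma Le.cons {e : List Word} {n m : ℕ} {x : Word} (h : Le e n) (hx : x.length ≤ m) (hnm : n ≤ m) :
    Le (x :: e) m := by
  intro y hy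
  rcases List.mem_cons.1 hy with rfl | hy
  · exact hx
  · exact (h y hy).trans hnm

lemma Le.mono {e : List Word} {n m : ℕ} (h : Le e n) (hnm : n ≤ m) : Le e m :=
  fun y hy => (h y hy).trans hnm

lemma bounds (A : Oracle) : ∀ (t : Tm) (e : List Word) (n : ℕ), Le e n →
    (eval A t e).length ≤ bd t n ∧ (qs A t e).length ≤ bd t n ∧
      ∀ q ∈ qs A t e, q.length ≤ bd t n := by
  intro t
  induction t with
  | var i =>
    intro e n h
    refine ⟨h.getD i, by simp [qs], by simp [qs]⟩
  | nil => intro e n h; simp [eval, qs, bd]
  | cons b t ih =>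
    intro e n h
    obtain ⟨h1, h2, h3⟩ := ih e n h
    refine ⟨by simp only [eval, List.length_cons, bd]; omega, by simp only [qs, bd]; omega, ?_⟩
    intro q hq
    have := h3 q (by simpa only [qs] using hq)
    simp only [bd]; omega
  | cas t u v w iht ihu ihv ihw =>
    intro e n h
    obtain ⟨h1, h2, h3⟩ := iht e n h
    rcases hx : eval A t e with _ | ⟨b, x⟩
    · obtain ⟨h4, h5, h6⟩ := ihu e n h
      refine ⟨by simp only [eval, hx, bd]; omega, by simp only [qs, hx, bd, List.length_append]; omega, ?_⟩
      intro q hq
      simp only [qs, hx, List.mem_append] at hq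
      simp only [bd]
      rcases hq with hq | hq
      · have := h3 q hq; omega
      · have := h6 q hq; omega
    · rw [hx] at h1
      simp only [List.length_cons] at h1
      have hle : Le (x :: e) (n + bd t n) := h.cons (by omega) (by omega)
      cases b
      · obtain ⟨h4, h5, h6⟩ := ihv (x :: e) _ hle
        refine ⟨by simp only [eval, hx, bd]; omega, by simp only [qs, hx, bd, List.length_append]; omega, ?_⟩
        intro q hq
        simp only [qs, hx, List.mem_append] at hq
        simp only [bd]
        rcases hq with hq | hq
        · have := h3 q hq; omega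
        · have := h6 q hq; omega
      · obtain ⟨h4, h5, h6⟩ := ihw (x :: e) _ hle
        refine ⟨by simp only [eval, hx, bd]; omega, by simp only [qs, hx, bd, List.length_append]; omega, ?_⟩
        intro q hq
        simp only [qs, hx, List.mem_append] at hq
        simp only [bd]
        rcases hq with hq | hq
        · have := h3 q hq; omega
        · have := h6 q hq; omega
  | smash t u iht ihu =>
    intro e n h
    obtain ⟨h1, h2, h3⟩ := iht e n h
    obtain ⟨h4, h5, h6⟩ := ihu e n h
    have h7 := Nat.mul_le_mul h1 h4
    refine ⟨by simp only [eval, bd, List.length_replicate]; omega,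
      by simp only [qs, bd, List.length_append]; omega, ?_⟩
    intro q hq
    simp only [qs, List.mem_append] at hq
    simp only [bd]
    rcases hq with hq | hq
    · have := h3 q hq; omega
    · have := h6 q hq; omega
  | ask t ih =>
    intro e n h
    obtain ⟨h1, h2, h3⟩ := ih e n h
    refine ⟨by simp only [eval, List.length_cons, List.length_nil, bd]; omega,
      by simp only [qs, List.length_cons, bd]; omega, ?_⟩
    intro q hq
    simp only [qs, List.mem_cons] at hq
    simp only [bd]
    rcases hq with rfl | hq
    · omega
    · have := h3 q hq; omega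
  | lett t u iht ihu =>
    intro e n h
    obtain ⟨h1, h2, h3⟩ := iht e n h
    have hle : Le (eval A t e :: e) (n + bd t n) := h.cons (by omega) (by omega)
    obtain ⟨h4, h5, h6⟩ := ihu _ _ hle
    refine ⟨by simp only [eval, bd]; omega, by simp only [qs, bd, List.length_append]; omega, ?_⟩
    intro q hq
    simp only [qs, List.mem_append] at hq
    simp only [bd]
    rcases hq with hq | hq
    · have := h3 q hq; omega
    · have := h6 q hq; omega
  | recn t g h k iht ihg ihh ihk =>
    intro e n hn
    obtain ⟨h1, h2, h3⟩ := iht e n hn
    obtain ⟨h4, h5, h6⟩ := ihg e n hn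
    set a := bd t n with ha
    set b := bd g n with hb
    set c := bd k (n + a) with hc
    set d := bd h (n + a + (b + c)) with hd
    set R := recW (eval A g e) (fun r x => eval A h (r :: x :: e))
          (fun x => (eval A k (x :: e)).length) with hR
    have key : ∀ x : Word, x.length ≤ a → (R x).length ≤ b + c ∧
        (recQ R (fun r x => qs A h (r :: x :: e)) (fun x => qs A k (x :: e)) x).length
          ≤ x.length * (d + c) ∧
        ∀ q ∈ recQ R (fun r x => qs A h (r :: x :: e)) (fun x => qs A k (x :: e)) x,
          q.length ≤ d + c ∧ 1 ≤ x.length := by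
      intro x
      induction x with
      | nil =>
        intro _
        refine ⟨?_, by simp [recQ], by simp [recQ]⟩
        rw [hR]
        simp only [recW]
        omega
      | cons s x ih =>
        intro hx
        simp only [List.length_cons] at hx
        obtain ⟨i1, i2, i3⟩ := ih (by omega)
        have hle1 : Le ((s :: x) :: e) (n + a) :=
          hn.cons (by simp only [List.length_cons]; omega) (by omega)
        have hle2 : Le (R x :: (s :: x) :: e) (n + a + (b + c)) :=
          hle1.cons (by omega) (by omega)
        obtain ⟨j1, j2, j3⟩ := ihh _ _ hle2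
        obtain ⟨l1, l2, l3⟩ := ihk _ _ hle1
        refine ⟨?_, ?_, ?_⟩
        · have : (R (s :: x)).length ≤ (eval A k ((s :: x) :: e)).length := by
            rw [hR]
            simp only [recW, List.length_take]
            omega
          omega
        · simp only [recQ, List.length_append, List.length_cons]
          have : (x.length + 1) * (d + c) = x.length * (d + c) + (d + c) := by ring
          omega
        · intro q hq
          simp only [recQ, List.mem_append] at hq
          simp only [List.length_cons]
          rcases hq with hq | hq | hq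
          · have := (i3 q hq).1; omega
          · have := j3 q hq; omega
          · have := l3 q hq; omega
    obtain ⟨k1, k2, k3⟩ := key (eval A t e) h1
    have hmul : (eval A t e).length * (d + c) ≤ a * (d + c) := Nat.mul_le_mul_right _ h1
    have hbd : bd (.recn t g h k) n = a + b + c + a * (d + c) := rfl
    have e1 : eval A (.recn t g h k) e = R (eval A t e) := rfl
    have e2 : qs A (.recn t g h k) e = qs A t e ++ (qs A g e ++
      recQ R (fun r x => qs A h (r :: x :: e)) (fun x => qs A k (x :: e)) (eval A t e)) := rfl
    rw [hbd, e1, e2]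
    refine ⟨by omega, ?_, ?_⟩
    · simp only [List.length_append]
      omega
    · intro q hq
      simp only [List.mem_append] at hq
      rcases hq with hq | hq | hq
      · have := h3 q hq; omega
      · have := h6 q hq; omega
      · obtain ⟨m1, m2⟩ := k3 q hq
        have : 1 * (d + c) ≤ a * (d + c) := Nat.mul_le_mul_right _ (by omega)
        omega

/-- Polynomially bounded. -/
def PB (f : ℕ → ℕ) : Prop := ∃ c, ∀ n, f n ≤ (n + 2) ^ c

lemma PB.const (a : ℕ) : PB fun _ => a := by
  refine ⟨a, fun n => ?_⟩
  calc a ≤ 2 ^ a := Nat.lt_two_pow_self.le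
    _ ≤ (n + 2) ^ a := Nat.pow_le_pow_left (by omega) _

lemma PB.id : PB fun n => n := ⟨1, fun n => by simp⟩

lemma PB.mul {f g : ℕ → ℕ} (hf : PB f) (hg : PB g) : PB fun n => f n * g n := by
  obtain ⟨a, ha⟩ := hf
  obtain ⟨b, hb⟩ := hg
  refine ⟨a + b, fun n => ?_⟩
  rw [pow_add]
  exact Nat.mul_le_mul (ha n) (hb n)

lemma PB.add {f g : ℕ → ℕ} (hf : PB f) (hg : PB g) : PB fun n => f n + g n := by
  obtain ⟨a, ha⟩ := hf
  obtain ⟨b, hb⟩ := hg
  refine ⟨a + b + 1, fun n => ?_⟩
  show f n + g n ≤ (n + 2) ^ (a + b + 1)
  have h1 : (n + 2) ^ a ≤ (n + 2) ^ (a + b) := Nat.pow_le_pow_right (by omega) (by omega)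
  have h2 : (n + 2) ^ b ≤ (n + 2) ^ (a + b) := Nat.pow_le_pow_right (by omega) (by omega)
  have h3 : (n + 2) ^ (a + b + 1) = (n + 2) ^ (a + b) * (n + 2) := pow_succ _ _
  have h4 : (n + 2) ^ (a + b) * 2 ≤ (n + 2) ^ (a + b) * (n + 2) :=
    Nat.mul_le_mul_left _ (by omega)
  have := ha n
  have := hb n
  omega

lemma PB.comp {f g : ℕ → ℕ} (hf : PB f) (hg : PB g) : PB fun n => f (g n) := by
  obtain ⟨a, ha⟩ := hf
  obtain ⟨b, hb⟩ := hg
  refine ⟨(b + 2) * a, fun n => ?_⟩
  calc f (g n) ≤ (g n + 2) ^ a := ha _
    _ ≤ ((n + 2) ^ (b + 2)) ^ a := by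
        refine Nat.pow_le_pow_left ?_ _
        have h1 := hb n
        have h2 : (n + 2) ^ (b + 2) = (n + 2) ^ b * ((n + 2) * (n + 2)) := by ring
        have h3 : (n + 2) ^ b * 4 ≤ (n + 2) ^ b * ((n + 2) * (n + 2)) :=
          Nat.mul_le_mul_left _ (by nlinarith)
        have h4 : 1 ≤ (n + 2) ^ b := Nat.one_le_pow _ _ (by omega)
        omega
    _ = (n + 2) ^ ((b + 2) * a) := (pow_mul _ _ _).symm

lemma PB.pow {f : ℕ → ℕ} (hf : PB f) (k : ℕ) : PB fun n => f n ^ k := by
  induction k with
  | zero => simpa using PB.const 1
  | succ k ih => simpa only [pow_succ] using ih.mul hf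

lemma PB.mono {f g : ℕ → ℕ} (hg : PB g) (h : ∀ n, f n ≤ g n) : PB f := by
  obtain ⟨a, ha⟩ := hg
  exact ⟨a, fun n => (h n).trans (ha n)⟩

lemma bd_PB (t : Tm) : PB (bd t) := by
  induction t with
  | var i => exact PB.id
  | nil => exact PB.const 0
  | cons b t ih => exact ih.add (PB.const 1)
  | cas t u v w iht ihu ihv ihw =>
    exact ((iht.add ihu).add (ihv.comp (PB.id.add iht))).add (ihw.comp (PB.id.add iht))
  | smash t u iht ihu => exact (iht.add ihu).add (iht.mul ihu)
  | ask t ih => exact ih.add (PB.const 1)
  | lett t u iht ihu => exact iht.add (ihu.comp (PB.id.add iht))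
  | recn t g h k iht ihg ihh ihk =>
    have hk := ihk.comp (PB.id.add iht)
    exact ((iht.add ihg).add hk).add
      (iht.mul ((ihh.comp ((PB.id.add iht).add (ihg.add hk))).add hk))

end OrC
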