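import Mathlib

set_option autoImplicit false

namespace OrC

lemma exists_sq_le_two_pow (d : ℕ) : ∃ l0 : ℕ, ∀ l ≥ l0, 2 * d * (l + 1) ^ 2 + 4 ≤ 2 ^ l := by
  have key : ∀ l : ℕ, (l + 1) ^ 3 ≤ 64 * 2 ^ l := by
    intro l
    induction l with
    | zero => norm_num
    | succ l ih =>
      rcases Nat.lt_or_ge l 3 with h | h
      · interval_cases l <;> norm_num
      · have h1 : (l + 1 + 1) ^ 3 ≤ 2 * (l + 1) ^ 3 := by
          obtain ⟨m, rfl⟩ := Nat.exists_eq_add_of_le h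
          ring_nf
          nlinarith [Nat.zero_le (m ^ 3), Nat.zero_le (m ^ 2), Nat.zero_le m]
        calc (l + 1 + 1) ^ 3 ≤ 2 * (l + 1) ^ 3 := h1
          _ ≤ 2 * (64 * 2 ^ l) := Nat.mul_le_mul_left _ ih
          _ = 64 * 2 ^ (l + 1) := by ring
  refine ⟨64 * (2 * d + 4), fun l hl => ?_⟩
  have h1 := key l
  have h2 : 64 * (2 * d + 4) * (l + 1) ^ 2 ≤ (l + 1) ^ 3 := by
    have : (l + 1) ^ 3 = (l + 1) * (l + 1) ^ 2 := by ring
    rw [this]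
    exact Nat.mul_le_mul_right _ (by omega)
  have h3 : 1 ≤ (l + 1) ^ 2 := Nat.one_le_pow _ _ (by omega)
  have h4 : 2 * d * (l + 1) ^ 2 + 4 ≤ (2 * d + 4) * (l + 1) ^ 2 := by nlinarith
  have h5 : 64 * ((2 * d + 4) * (l + 1) ^ 2) ≤ 64 * 2 ^ l := by
    calc 64 * ((2 * d + 4) * (l + 1) ^ 2) = 64 * (2 * d + 4) * (l + 1) ^ 2 := by ring
      _ ≤ (l + 1) ^ 3 := h2
      _ ≤ 64 * 2 ^ l := h1
  omega

/-- Quasipolynomial functions are eventually below `2^(n/2)`. -/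
lemma quasi (d : ℕ) : ∃ n0 : ℕ, ∀ n ≥ n0,
    (n + 2) ^ (d * (Nat.log 2 (n + 2) + 1)) ≤ 2 ^ (n / 2) := by
  obtain ⟨l0, hl0⟩ := exists_sq_le_two_pow d
  refine ⟨2 ^ (l0 + 1), fun n hn => ?_⟩
  set l := Nat.log 2 (n + 2) with hl
  have h1 : n + 2 ≤ 2 ^ (l + 1) := (Nat.lt_pow_succ_log_self (by norm_num) _).le
  have h2 : 2 ^ l ≤ n + 2 := Nat.pow_log_le_self 2 (by omega)
  have h3 : l0 ≤ l := by
    rw [hl]
    calc l0 ≤ l0 + 1 := by omega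
      _ = Nat.log 2 (2 ^ (l0 + 1)) := (Nat.log_pow (by norm_num) _).symm
      _ ≤ Nat.log 2 (n + 2) := Nat.log_mono_right (by omega)
  have h4 := hl0 l h3
  calc (n + 2) ^ (d * (l + 1)) ≤ (2 ^ (l + 1)) ^ (d * (l + 1)) := Nat.pow_le_pow_left h1 _
    _ = 2 ^ (d * (l + 1) ^ 2) := by rw [← pow_mul]; ring_nf
    _ ≤ 2 ^ (n / 2) := by
        refine Nat.pow_le_pow_right (by norm_num) ?_
        have : 2 * (d * (l + 1) ^ 2) = 2 * d * (l + 1) ^ 2 := by ring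
        omega

/-- The form which is used: `L` polynomially bounded, mass `≤ (1 + L^2)^(log L + 1)`. -/
lemma quasi_bound (c a : ℕ) : ∃ n0 : ℕ, ∀ n ≥ n0, ∀ L ≤ (n + 2) ^ c,
    a * (L + 1) ^ 2 * (1 + L ^ 2) ^ (Nat.log 2 L + 1) + a * (L + 1) ≤ 2 ^ (n / 2) := by
  obtain ⟨n0, h0⟩ := quasi (a + 1 + 2 * (c + 1) + 2 * (c + 1) * (c + 1) + 1)
  refine ⟨n0, fun n hn L hL => ?_⟩
  refine le_trans ?_ (h0 n hn)
  set l := Nat.log 2 (n + 2) with hl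
  have hl1 : 1 ≤ l := by
    rw [hl]
    calc 1 = Nat.log 2 (2 ^ 1) := (Nat.log_pow (by norm_num) _).symm
      _ ≤ Nat.log 2 (n + 2) := Nat.log_mono_right (by omega)
  have h1 : n + 2 < 2 ^ (l + 1) := Nat.lt_pow_succ_log_self (by norm_num) _
  have hlogL : Nat.log 2 L ≤ c * (l + 1) := by
    calc Nat.log 2 L ≤ Nat.log 2 ((2 ^ (l + 1)) ^ c) :=
          Nat.log_mono_right (hL.trans (Nat.pow_le_pow_left h1.le _))
      _ = (l + 1) * c := by rw [← pow_mul, Nat.log_pow (by norm_num)]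
      _ = c * (l + 1) := by ring
  have hone : 1 ≤ (n + 2) ^ c := Nat.one_le_pow _ _ (by omega)
  have hL1 : L + 1 ≤ (n + 2) ^ (c + 1) := by
    rw [pow_succ]
    nlinarith
  have hL2 : 1 + L ^ 2 ≤ (n + 2) ^ (2 * (c + 1)) := by
    calc 1 + L ^ 2 ≤ (L + 1) ^ 2 := by nlinarith [Nat.zero_le L]
      _ ≤ ((n + 2) ^ (c + 1)) ^ 2 := Nat.pow_le_pow_left hL1 _
      _ = (n + 2) ^ (2 * (c + 1)) := by rw [← pow_mul]; ring_nf
  have ha : a ≤ (n + 2) ^ a := by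
    calc a ≤ 2 ^ a := Nat.lt_two_pow_self.le
      _ ≤ (n + 2) ^ a := Nat.pow_le_pow_left (by omega) _
  have hM : (1 + L ^ 2) ^ (Nat.log 2 L + 1) ≤
      (n + 2) ^ (2 * (c + 1) * (c * (l + 1) + 1)) := by
    calc (1 + L ^ 2) ^ (Nat.log 2 L + 1) ≤ ((n + 2) ^ (2 * (c + 1))) ^ (Nat.log 2 L + 1) :=
          Nat.pow_le_pow_left hL2 _
      _ = (n + 2) ^ (2 * (c + 1) * (Nat.log 2 L + 1)) := by rw [← pow_mul]
      _ ≤ _ := Nat.pow_le_pow_right (by omega) (Nat.mul_le_mul_left _ (by omega))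
  have hM1 : 1 ≤ (1 + L ^ 2) ^ (Nat.log 2 L + 1) := Nat.one_le_pow _ _ (by omega)
  have hsum : a * (L + 1) ^ 2 * (1 + L ^ 2) ^ (Nat.log 2 L + 1) + a * (L + 1) ≤
      2 * (a * (L + 1) ^ 2 * (1 + L ^ 2) ^ (Nat.log 2 L + 1)) := by
    have : a * (L + 1) ≤ a * (L + 1) ^ 2 * (1 + L ^ 2) ^ (Nat.log 2 L + 1) := by
      calc a * (L + 1) ≤ a * (L + 1) ^ 2 := Nat.mul_le_mul_left _ (by nlinarith [Nat.zero_le L])
        _ = a * (L + 1) ^ 2 * 1 := by ring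
        _ ≤ _ := Nat.mul_le_mul_left _ hM1
    omega
  refine hsum.trans ?_
  calc 2 * (a * (L + 1) ^ 2 * (1 + L ^ 2) ^ (Nat.log 2 L + 1))
      ≤ (n + 2) * ((n + 2) ^ a * ((n + 2) ^ (c + 1)) ^ 2 *
          (n + 2) ^ (2 * (c + 1) * (c * (l + 1) + 1))) := by
        refine Nat.mul_le_mul (by omega) (Nat.mul_le_mul (Nat.mul_le_mul ha ?_) hM)
        exact Nat.pow_le_pow_left hL1 _
    _ = (n + 2) ^ (1 + a + 2 * (c + 1) + 2 * (c + 1) * (c * (l + 1) + 1)) := by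
        rw [← pow_mul]
        ring
    _ ≤ (n + 2) ^ ((a + 1 + 2 * (c + 1) + 2 * (c + 1) * (c + 1) + 1) * (l + 1)) := by
        refine Nat.pow_le_pow_right (by omega) ?_
        nlinarith [Nat.zero_le (a * l), Nat.zero_le (c * l), Nat.zero_le (c * c * l),
          Nat.zero_le (c * c), Nat.zero_le l]

end OrC
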