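import Pool.Agent.Lib.MP_f6efc0_lc.SemDefs
import Pool.Agent.Lib.MP_f6efc0_lc.Classes

/-!
The definitions of the statements agree with those of `Model.lean` and `Classes.lean`.
-/

set_option autoImplicit false

namespace OrC

namespace Sem

lemma recn_eq (g : Word) (h : Word → Word → Word) (k : Word → ℕ) (x : Word) :
    recn g h k x = recW g h k x := by
  induction x with
  | nil => rfl
  | cons b x ih =>
    change (h (recn g h k x) (b :: x)).take (k (b :: x)) = _
    rw [ih]
    rfl

theorem value_eq (A : Oracle) (t : Tm) : value A t = eval A t := by
  induction t with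
  | var i => rfl
  | nil => rfl
  | cons b t ih =>
    funext e
    change b :: value A t e = b :: eval A t e
    rw [ih]
  | cas t u v w iht ihu ihv ihw =>
    funext e
    change cases (value A t e) (value A u e) (fun x => value A v (x :: e))
      (fun x => value A w (x :: e)) = _
    rw [iht, ihu, ihv, ihw]
    simp only [eval]
    rcases eval A t e with _ | ⟨b, x⟩
    · rfl
    · cases b <;> rfl
  | smash t u iht ihu =>
    funext e
    change List.replicate ((value A t e).length * (value A u e).length) true = _
    rw [iht, ihu]
    rfl
  | ask t ih =>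
    funext e
    change [A (value A t e)] = [A (eval A t e)]
    rw [ih]
  | lett t u iht ihu =>
    funext e
    change value A u (value A t e :: e) = eval A u (eval A t e :: e)
    rw [iht, ihu]
  | recn t g h k iht ihg ihh ihk =>
    funext e
    change recn (value A g e) (fun r x => value A h (r :: x :: e))
      (fun x => (value A k (x :: e)).length) (value A t e) = _
    rw [iht, ihg, ihh, ihk, recn_eq]
    rfl

theorem PrOut_eq (A : Oracle) (t : Tm) (k : ℕ) (x : Word) (S : Option Bool → Prop) :
    PrOut A t k x S = OrC.PrOut A t k x S := by
  unfold PrOut OrC.PrOut Pr outcome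
  rw [value_eq]

theorem inRP_iff (A : Oracle) (L : Set Word) : InRP A L ↔ OrC.InRP A L := by
  unfold InRP OrC.InRP
  simp only [PrOut_eq]

theorem inBPP_iff (A : Oracle) (L : Set Word) : InBPP A L ↔ OrC.InBPP A L := by
  unfold InBPP OrC.InBPP
  simp only [PrOut_eq]

theorem reduces_iff (A : Oracle) (L K : Set Word) : Reduces A L K ↔ OrC.Reduces A L K := by
  unfold Reduces OrC.Reduces PolyTime OrC.PolyTime
  simp only [value_eq]

end Sem

end OrC
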