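import Pool.Agent.Lib.MP_f6efc0_lc.Sem
import Pool.Agent.Lib.MP_f6efc0_lc.CoreB.Asm

/-!
The class P of the statements agrees with that of `CoreB/Asm.lean`.
-/

set_option autoImplicit false

namespace OrC

namespace Sem

theorem inP_iff (A : Oracle) (L : Set Word) : InP A L ↔ OrC.InP A L := by
  unfold InP OrC.InP
  simp only [value_eq]

end Sem

end OrC
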