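import Pool.Agent.Lib.MP_f6efc0_lc.Tm

/-!
The definitions used in the statements of the hand-ins: the semantics of programs by recursors, and
the classes P, RP, BPP relative to an oracle.
-/

set_option autoImplicit false

namespace OrC

namespace Sem

/-- Case distinction on the first bit of a word. -/
def cases {α : Type} (x : Word) (u : α) (v w : Word → α) : α :=
  List.rec u (fun b y _ => cond b (w y) (v y)) x

/-- Recursion on notation, cut to the length `k x`. -/
def recn (g : Word) (h : Word → Word → Word) (k : Word → ℕ) (x : Word) : Word :=
  List.rec g (fun b y r => (h r (b :: y)).take (k (b :: y))) x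

/-- The value of a program in an environment, relative to the oracle `A`. -/
noncomputable def value (A : Oracle) (t : Tm) : List Word → Word :=
  Tm.rec (motive := fun _ => List Word → Word)
    (fun i e => e.getD i [])
    (fun _ => [])
    (fun b _ t e => b :: t e)
    (fun _ _ _ _ t u v w e => cases (t e) (u e) (fun x => v (x :: e)) (fun x => w (x :: e)))
    (fun _ _ t u e => List.replicate ((t e).length * (u e).length) true)
    (fun _ t e => [A (t e)])
    (fun _ _ t u e => u (t e :: e))
    (fun _ _ _ _ t g h k e =>
      recn (g e) (fun r x => h (r :: x :: e)) (fun x => (k (x :: e)).length) (t e))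
    t

/-- Functions computable in polynomial time with the oracle `A`. -/
def PolyTime (A : Oracle) (f : Word → Word) : Prop := ∃ t : Tm, ∀ x : Word, f x = value A t [x]

/-- The probability that the machine `t` on the input `x` with `|x|^k + k` coin tosses has an
outcome in `S`. The outcome is the first bit of the value: `some true` is the accepting state,
`some false` the rejecting state, `none` (empty value) is `?`. -/
noncomputable def PrOut (A : Oracle) (t : Tm) (k : ℕ) (x : Word) (S : Option Bool → Prop) : ℝ :=
  ({r : Word | r.length = x.length ^ k + k ∧ S (value A t [x, r]).head?}.ncard : ℝ) /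
    2 ^ (x.length ^ k + k)

/-- The class P relative to `A`. -/
def InP (A : Oracle) (L : Set Word) : Prop :=
  ∃ t : Tm, ∀ x : Word, x ∈ L ↔ (value A t [x]).head? = some true

/-- The class RP relative to `A`. -/
def InRP (A : Oracle) (L : Set Word) : Prop :=
  ∃ (t : Tm) (k : ℕ), ∀ x : Word,
    (x ∈ L → 1 / 2 < PrOut A t k x (fun y => y = some true)) ∧
    (x ∉ L → PrOut A t k x (fun y => y = some true) = 0)

/-- The class BPP relative to `A`. -/
def InBPP (A : Oracle) (L : Set Word) : Prop :=
  ∃ (t : Tm) (k : ℕ) (ε : ℝ), 0 < ε ∧ ε < 1 / 2 ∧ ∀ x : Word,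
    (x ∈ L → PrOut A t k x (fun y => y ≠ some true) < ε) ∧
    (x ∉ L → PrOut A t k x (fun y => y ≠ some false) < ε)

/-- Many-one reducibility in polynomial time with the oracle `A`. -/
def Reduces (A : Oracle) (L K : Set Word) : Prop :=
  ∃ f : Word → Word, PolyTime A f ∧ ∀ x : Word, x ∈ L ↔ f x ∈ K

end Sem

end OrC
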