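import Pool.Agent.Lib.MP_f6efc0_lc.Model

set_option autoImplicit false

namespace OrC

/-- The step of a recursion which copies a word. -/
def copyT : Tm := .cas (.var 1) .nil (.cons false (.var 1)) (.cons true (.var 1))

lemma eval_copyT (A : Oracle) (r x : Word) (b : Bool) (e : List Word) :
    eval A copyT (r :: (b :: x) :: e) = b :: r := by
  cases b <;> simp [copyT, eval]

/-- Concatenation of the two entries of the environment. -/
def catT : Tm := .recn (.var 0) (.var 1) copyT (.smash (.cons true (.var 0)) (.cons true (.var 2)))

lemma eval_catT (A : Oracle) (x r : Word) : eval A catT [x, r] = x ++ r := by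
  have key : ∀ y : Word, recW (eval A (.var 1) [x, r])
      (fun r' x' => eval A copyT (r' :: x' :: [x, r]))
      (fun x' => (eval A (.smash (.cons true (.var 0)) (.cons true (.var 2))) (x' :: [x, r])).length)
      y = y ++ r := by
    intro y
    induction y with
    | nil => simp [recW, eval]
    | cons b y ih =>
      simp only [recW, ih, eval_copyT]
      rw [List.take_of_length_le]
      · rfl
      · simp only [eval, List.length_cons, List.length_append, List.length_replicate,
          List.getD_cons_zero, List.getD_cons_succ]
        nlinarith [Nat.zero_le (y.length * r.length)]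
  have := key x
  simpa only [catT, eval, List.getD_cons_zero] using this

/-- Machine which asks the word `false :: (x ++ r)`. -/
def codeT : Tm := .ask (.cons false catT)

lemma eval_codeT (A : Oracle) (x r : Word) : eval A codeT [x, r] = [A (false :: (x ++ r))] := by
  simp only [codeT, eval, eval_catT]

/-- Put `j` times the symbol `true` and once the symbol `false` in front. -/
def tagT (j : ℕ) (t : Tm) : Tm := (fun u => Tm.cons true u)^[j] (.cons false t)

/-- The word `1^j 0 x`. -/
def tag (j : ℕ) (x : Word) : Word := List.replicate j true ++ false :: x

lemma eval_tagT (A : Oracle) (j : ℕ) (t : Tm) (e : List Word) :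
    eval A (tagT j t) e = tag j (eval A t e) := by
  induction j with
  | zero => simp [tagT, tag, eval]
  | succ j ih =>
    have : tagT (j + 1) t = .cons true (tagT j t) := by
      simp only [tagT, Function.iterate_succ_apply']
    rw [this]
    simp only [eval, ih, tag, List.replicate_succ, List.cons_append]

/-- Machine which asks the word `true :: 1^j 0 r`. -/
def yT (j : ℕ) : Tm := .ask (.cons true (tagT j (.var 1)))

lemma eval_yT (A : Oracle) (j : ℕ) (x r : Word) :
    eval A (yT j) [x, r] = [A (true :: tag j r)] := by
  simp only [yT, eval, eval_tagT, List.getD_cons_zero, List.getD_cons_succ]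

/-- The word of `(|x| + 2)^c` symbols `true`. -/
def powT : ℕ → Tm
  | 0 => .cons true .nil
  | c + 1 => .smash (powT c) (.cons true (.cons true (.var 0)))

lemma eval_powT (A : Oracle) (c : ℕ) (x : Word) :
    eval A (powT c) [x] = List.replicate ((x.length + 2) ^ c) true := by
  induction c with
  | zero => simp [powT, eval]
  | succ c ih =>
    simp only [powT, eval, ih, List.length_replicate, List.length_cons, List.getD_cons_zero]
    rw [pow_succ]

/-- The word `1^m 0 x` with `m = (|x| + 2)^c`. -/
def padT (c : ℕ) : Tm :=
  .recn (powT c) (.cons false (.var 0)) (.cons true (.var 0))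
    (.smash (.cons true (.var 0)) (.cons true (.cons true (.var 1))))

lemma eval_padT (A : Oracle) (c : ℕ) (x : Word) :
    eval A (padT c) [x] = tag ((x.length + 2) ^ c) x := by
  have key : ∀ m : ℕ, recW (eval A (.cons false (.var 0)) [x])
      (fun r' x' => eval A (.cons true (.var 0)) (r' :: x' :: [x]))
      (fun x' => (eval A (.smash (.cons true (.var 0)) (.cons true (.cons true (.var 1))))
        (x' :: [x])).length) (List.replicate m true) = tag m x := by
    intro m
    induction m with
    | zero => simp [recW, eval, tag]
    | succ m ih =>
      simp only [List.replicate_succ, recW, ih]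
      rw [List.take_of_length_le]
      · simp [eval, tag, List.replicate_succ]
      · simp only [eval, List.length_cons, List.length_append, List.length_replicate,
          List.getD_cons_zero, List.getD_cons_succ, tag]
        nlinarith [Nat.zero_le (m * x.length)]
  have := key ((x.length + 2) ^ c)
  rw [← eval_powT A c x] at this
  simpa only [padT, eval] using this

/-- The word `1^j 0 1^s 0 1^m 0 x`. -/
def code (j s m : ℕ) (x : Word) : Word := tag j (tag s (tag m x))

/-- The reduction `x ↦ 1^j 0 1^s 0 1^m 0 x` with `m = (|x| + 2)^c`. -/
def redT (j s c : ℕ) : Tm := tagT j (tagT s (padT c))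

lemma eval_redT (A : Oracle) (j s c : ℕ) (x : Word) :
    eval A (redT j s c) [x] = code j s ((x.length + 2) ^ c) x := by
  simp only [redT, eval_tagT, eval_padT, code]

end OrC
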