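import Mathlib

/-!
Words, oracles and programs.
-/

set_option autoImplicit false

namespace OrC

/-- Bit strings; the head of the list is the last symbol of the string. -/
abbrev Word := List Bool

/-- Oracles: sets of strings, given by their characteristic functions. -/
abbrev Oracle := Word → Bool

/-- Programs of Cobham's function algebra with an oracle. -/
inductive Tm : Type
  | var (i : ℕ)
  | nil
  | cons (b : Bool) (t : Tm)
  | cas (t u v w : Tm)
  | smash (t u : Tm)
  | ask (t : Tm)
  | lett (t u : Tm)
  | recn (t g h k : Tm)
  deriving Countable

end OrC
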